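import Mathlib

set_option autoImplicit false

namespace Pool.Agent.P.MP_dceaed_al

open Quaternion Finset

lemma pure_anticomm {u v : ℍ[ℝ]} (hu : u.re = 0) (hv : v.re = 0) :
    u * v + v * u = ((2 * (u * v).re : ℝ) : ℍ[ℝ]) := by
  ext <;> simp [hu, hv] <;> ring

lemma pure_star {u : ℍ[ℝ]} (hu : u.re = 0) : star u = -u := by
  ext <;> simp [hu]

lemma pure_sq {u : ℍ[ℝ]} (hu : u.re = 0) : u * u = ((-normSq u : ℝ) : ℍ[ℝ]) := by
  ext <;> simp [hu, normSq_def', pow_two] <;> ring

/-- An involution of the quaternions. -/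
structure IsInv (φ : ℍ[ℝ] →ₗ[ℝ] ℍ[ℝ]) : Prop where
  mul : ∀ x y, φ (x * y) = φ y * φ x
  inv : ∀ x, φ (φ x) = x

variable {φ : ℍ[ℝ] →ₗ[ℝ] ℍ[ℝ]}

lemma IsInv.one (h : IsInv φ) : φ 1 = 1 := by
  have h1 := h.mul 1 (φ 1)
  rw [one_mul, h.inv, one_mul] at h1
  exact h1.symm

lemma IsInv.coe (h : IsInv φ) (a : ℝ) : φ (a : ℍ[ℝ]) = a := by
  have : (a : ℍ[ℝ]) = a • (1 : ℍ[ℝ]) := by ext <;> simp
  rw [this, map_smul, h.one]

lemma IsInv.pure (h : IsInv φ) {u : ℍ[ℝ]} (hu : u.re = 0) : (φ u).re = 0 := by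
  have h1 := h.mul u u
  rw [pure_sq hu, h.coe] at h1
  by_contra hne
  have e0 := congrArg QuaternionAlgebra.re h1
  have e1 := congrArg QuaternionAlgebra.imI h1
  have e2 := congrArg QuaternionAlgebra.imJ h1
  have e3 := congrArg QuaternionAlgebra.imK h1
  simp at e0 e1 e2 e3
  have i1 : (φ u).imI = 0 := by
    apply mul_left_cancel₀ (mul_ne_zero two_ne_zero hne); linarith
  have i2 : (φ u).imJ = 0 := by
    apply mul_left_cancel₀ (mul_ne_zero two_ne_zero hne); linarith
  have i3 : (φ u).imK = 0 := by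
    apply mul_left_cancel₀ (mul_ne_zero two_ne_zero hne); linarith
  rw [i1, i2, i3] at e0
  have := normSq_nonneg (a := u)
  have := mul_self_pos.2 hne
  linarith

lemma IsInv.skew_pure (h : IsInv φ) {s : ℍ[ℝ]} (hs : φ s = -s) : s.re = 0 := by
  have h1 : (s - (s.re : ℍ[ℝ])).re = 0 := by simp
  have h2 := h.pure h1
  rw [map_sub, hs, h.coe] at h2
  simp at h2
  linarith

lemma IsInv.anti (h : IsInv φ) {s f : ℍ[ℝ]} (hs : φ s = -s) (hf : φ f = f) (hf0 : f.re = 0) :
    s * f = -(f * s) := by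
  have h1 := pure_anticomm (h.skew_pure hs) hf0
  have h2 := congrArg φ h1
  rw [h.coe, map_add, h.mul, h.mul, hs, hf, ← h1] at h2
  have h3 : (2 : ℝ) • (s * f + f * s) = 0 := by
    rw [two_smul]
    calc s * f + f * s + (s * f + f * s) = s * f + f * s + (f * -s + -s * f) := by rw [h2]
      _ = 0 := by noncomm_ring
  rcases smul_eq_zero.1 h3 with h4 | h4
  · norm_num at h4
  · exact eq_neg_of_add_eq_zero_left h4

lemma exists_unit {u : ℍ[ℝ]} (hu : u.re = 0) (h0 : u ≠ 0) :
    ∃ c : ℝ, (c • u) * (c • u) = -1 := by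
  have hn : 0 < normSq u := lt_of_le_of_ne normSq_nonneg (fun h => h0 (normSq_eq_zero.1 h.symm))
  refine ⟨(√(normSq u))⁻¹, ?_⟩
  rw [smul_mul_smul_comm, pure_sq hu, ← mul_inv, Real.mul_self_sqrt hn.le]
  ext <;> simp [hn.ne']

/-- Structure of a nonstandard involution. -/
lemma IsInv.exists_units (h : IsInv φ) (hns : ∃ x, φ x ≠ star x) :
    ∃ q r : ℍ[ℝ], φ q = -q ∧ φ r = r ∧ r.re = 0 ∧ q * q = -1 ∧ r * r = -1 ∧
      ∀ x, φ x = -(q * star x * q) := by
  obtain ⟨x, hx⟩ := hns
  have hu : (x - (x.re : ℍ[ℝ])).re = 0 := by simp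
  set u := x - (x.re : ℍ[ℝ]) with hudef
  have hv0 : u + φ u ≠ 0 := by
    intro h0
    apply hx
    have h1 : φ u = -u := eq_neg_of_add_eq_zero_right h0
    have h2 : x = u + (x.re : ℍ[ℝ]) := by rw [hudef]; abel
    rw [h2, map_add, h1, h.coe, star_add, pure_star hu]; simp
  have hv1 : (u + φ u).re = 0 := by simp [hu, h.pure hu]
  obtain ⟨c, hc⟩ := exists_unit hv1 hv0
  set r := c • (u + φ u) with hr
  have hr0 : r.re = 0 := by simp [hr, hu, h.pure hu]
  have hr1 : φ r = r := by rw [hr, map_smul, map_add, h.inv, add_comm]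
  have hrne : r ≠ 0 := by
    intro h0; rw [h0] at hc; simp at hc
  -- a nonzero skew element
  have hskew : ∃ s : ℍ[ℝ], s ≠ 0 ∧ φ s = -s := by
    obtain ⟨w, hw0, hw1, hw2⟩ : ∃ w : ℍ[ℝ], w ≠ 0 ∧ w.re = 0 ∧ r * w = -(w * r) := by
      by_cases h1 : r.imI = 0
      · refine ⟨⟨0, 1, 0, 0⟩, ?_, rfl, ?_⟩
        · intro h0
          have := congrArg QuaternionAlgebra.imI h0
          simp at this
        · ext <;> simp [hr0, h1]
      · refine ⟨⟨0, -r.imJ, r.imI, 0⟩, ?_, rfl, ?_⟩
        · intro h0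
          have := congrArg QuaternionAlgebra.imJ h0
          exact h1 (by simpa using this)
        · ext <;> simp [hr0] <;> ring
    by_cases h2 : φ w = w
    · refine ⟨r * w, mul_ne_zero hrne hw0, ?_⟩
      rw [h.mul, h2, hr1, hw2, neg_neg]
    · refine ⟨w - φ w, sub_ne_zero.2 (Ne.symm h2), ?_⟩
      rw [map_sub, h.inv, neg_sub]
  obtain ⟨s, hs0, hs1⟩ := hskew
  obtain ⟨d, hd⟩ := exists_unit (h.skew_pure hs1) hs0
  set q := d • s with hq
  have hq1 : φ q = -q := by rw [hq, map_smul, hs1, smul_neg]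
  have hq0 := h.skew_pure hq1
  have hqne : q ≠ 0 := by
    intro h0; rw [h0] at hd; simp at hd
  have hqr := h.anti hq1 hr1 hr0
  have hk1 : φ (q * r) = q * r := by rw [h.mul, hq1, hr1, hqr]; simp
  have hk0 : (q * r).re = 0 := by
    have := pure_anticomm hq0 hr0
    rw [hqr] at this
    have h3 := congrArg QuaternionAlgebra.re this
    rw [hqr]
    simp only [neg_add_cancel, Quaternion.re_zero, Quaternion.re_coe] at h3
    linarith
  have fixed : ∀ w : ℍ[ℝ], w.re = 0 → w * q = -(q * w) → φ w = w := by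
    intro w hw0 hw1
    have h1 : φ (w - φ w) = -(w - φ w) := by rw [map_sub, h.inv, neg_sub]
    have h2 : φ w * q = -(q * φ w) := by
      have := congrArg φ hw1
      rw [map_neg, h.mul, h.mul, hq1] at this
      calc φ w * q = -(φ w * -q) := by simp
        _ = -q * φ w := this.symm
        _ = -(q * φ w) := by simp
    have h3 : (w - φ w) * q = -(q * (w - φ w)) := by
      rw [sub_mul, mul_sub, hw1, h2]; abel
    have h4 := h.anti h1 hr1 hr0
    have h5 := h.anti h1 hk1 hk0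
    have h6 : (w - φ w) * (q * r) = q * r * (w - φ w) := by
      rw [← mul_assoc, h3, neg_mul, mul_assoc, h4]; simp [mul_assoc]
    have h7 : (2 : ℝ) • (q * r * (w - φ w)) = 0 := by
      rw [two_smul]
      nth_rewrite 1 [← h6]
      rw [h5]; simp
    rcases smul_eq_zero.1 h7 with h8 | h8
    · norm_num at h8
    · rcases mul_eq_zero.1 h8 with h9 | h9
      · exact absurd h9 (mul_ne_zero hqne hrne)
      · exact (sub_eq_zero.1 h9).symm
  refine ⟨q, r, hq1, hr1, hr0, hd, hc, fun y => ?_⟩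
  set e : ℝ := -((y - (y.re : ℍ[ℝ])) * q).re with he
  set w := y - (y.re : ℍ[ℝ]) - e • q with hw
  have hw0 : w.re = 0 := by simp [hw, hq0]
  have hw1 : w * q = -(q * w) := by
    have h1 := pure_anticomm hw0 hq0
    have h2 : (w * q).re = 0 := by
      rw [hw, sub_mul, smul_mul_assoc, hd]
      simp only [Quaternion.re_sub, Quaternion.re_smul, Quaternion.re_neg, Quaternion.re_one,
        smul_eq_mul]
      rw [he]; ring
    rw [h2] at h1
    exact eq_neg_of_add_eq_zero_left (by simpa using h1)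
  have hy : y = (y.re : ℍ[ℝ]) + e • q + w := by rw [hw]; abel
  have h1 : φ y = (y.re : ℍ[ℝ]) - e • q + w := by
    nth_rewrite 1 [hy]
    rw [map_add, map_add, map_smul, h.coe, hq1, fixed w hw0 hw1, smul_neg, sub_eq_add_neg]
  have h2 : star y = (y.re : ℍ[ℝ]) - e • q - w := by
    nth_rewrite 1 [hy]
    rw [star_add, star_add, pure_star hw0, Quaternion.star_smul, pure_star hq0]
    simp [sub_eq_add_neg]
  rw [h1, h2]
  have h3 : q * w * q = w := by
    rw [mul_assoc, hw1, mul_neg, ← mul_assoc, hd]; simp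
  have h4 : q * (y.re : ℍ[ℝ]) * q = -(y.re : ℍ[ℝ]) := by
    rw [← Quaternion.coe_commutes, mul_assoc, hd]; simp
  have h5 : q * (e • q) * q = -(e • q) := by
    rw [mul_smul_comm e q q, hd]; simp
  rw [mul_sub, mul_sub, sub_mul, sub_mul, h3, h4, h5]
  abel

/-- The sesquilinear form of a matrix. -/
noncomputable def form (φ : ℍ[ℝ] →ₗ[ℝ] ℍ[ℝ]) {n : ℕ} (A : Matrix (Fin n) (Fin n) ℍ[ℝ]) (x y : Fin n → ℍ[ℝ]) :
    ℍ[ℝ] := ∑ i, ∑ j, φ (x i) * A i j * y j

variable {n : ℕ}

lemma form_one (x y : Fin n → ℍ[ℝ]) : form φ 1 x y = ∑ i, φ (x i) * y i := by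
  simp [form, Matrix.one_apply]

lemma form_add_left (A : Matrix (Fin n) (Fin n) ℍ[ℝ]) (x x' y : Fin n → ℍ[ℝ]) :
    form φ A (x + x') y = form φ A x y + form φ A x' y := by
  simp [form, add_mul, sum_add_distrib]

lemma form_add_right (A : Matrix (Fin n) (Fin n) ℍ[ℝ]) (x y y' : Fin n → ℍ[ℝ]) :
    form φ A x (y + y') = form φ A x y + form φ A x y' := by
  simp [form, mul_add, sum_add_distrib]

lemma form_smul_left (A : Matrix (Fin n) (Fin n) ℍ[ℝ]) (t : ℝ) (x y : Fin n → ℍ[ℝ]) :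
    form φ A (t • x) y = t • form φ A x y := by
  simp [form, smul_sum]

lemma form_smul_right (A : Matrix (Fin n) (Fin n) ℍ[ℝ]) (t : ℝ) (x y : Fin n → ℍ[ℝ]) :
    form φ A x (t • y) = t • form φ A x y := by
  simp [form, smul_sum]

lemma form_single (A : Matrix (Fin n) (Fin n) ℍ[ℝ]) (k l : Fin n) (u v : ℍ[ℝ]) :
    form φ A (Pi.single k u) (Pi.single l v) = φ u * A k l * v := by
  unfold form
  rw [sum_eq_single k, sum_eq_single l]
  · simp
  · intro j _ hj; simp [hj]
  · simp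
  · intro i _ hi; simp [hi]
  · simp

lemma quad_bounded {C L Q : ℍ[ℝ]} {M : ℝ} (h : ∀ t : ℝ, ‖C + t • L + t • t • Q‖ ≤ M) : Q = 0 := by
  by_contra hQ
  have hQ0 : 0 < ‖Q‖ := norm_pos_iff.2 hQ
  have hM : 0 ≤ M := (norm_nonneg _).trans (h 0)
  set t : ℝ := 2 * M / ‖Q‖ + 1 with ht
  have h1 := h t
  have h2 := h (-t)
  have h3 := h 0
  have e : (2 * t * t) • Q = (C + t • L + t • t • Q) + (C + (-t) • L + (-t) • (-t) • Q)
      - (C + (0 : ℝ) • L + (0 : ℝ) • (0 : ℝ) • Q) - (C + (0 : ℝ) • L + (0 : ℝ) • (0 : ℝ) • Q) := by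
    module
  have h4 : ‖(2 * t * t) • Q‖ ≤ 4 * M := by
    rw [e]
    refine (norm_sub_le _ _).trans ?_
    have := norm_sub_le ((C + t • L + t • t • Q) + (C + (-t) • L + (-t) • (-t) • Q))
      (C + (0 : ℝ) • L + (0 : ℝ) • (0 : ℝ) • Q)
    have := norm_add_le (C + t • L + t • t • Q) (C + (-t) • L + (-t) • (-t) • Q)
    linarith
  have ht1 : 1 ≤ t := by
    have : 0 ≤ 2 * M / ‖Q‖ := by positivity
    linarith
  rw [norm_smul, Real.norm_eq_abs, abs_of_pos (by positivity)] at h4
  have h5 : t * ‖Q‖ = 2 * M + ‖Q‖ := by rw [ht]; field_simp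
  nlinarith

/-- Every isotropic vector is the direction of a line in the sphere. -/
lemma null_zero (h : IsInv φ) {q : ℍ[ℝ]} (hq : φ q = -q) (hqq : q * q = -1) {α : ℍ[ℝ]}
    (hα : φ α = α) {A : Matrix (Fin n) (Fin n) ℍ[ℝ]} {M : ℝ}
    (hM : ∀ x, form φ 1 x x = α → ‖form φ A x x‖ ≤ M) {y : Fin n → ℍ[ℝ]} {k : Fin n}
    (hk : y k = 1) (hy : form φ 1 y y = 0) : form φ A y y = 0 := by
  let a : ℍ[ℝ] := (-1 / 2 : ℝ) • (q * (α - 1))
  let x₀ : Fin n → ℍ[ℝ] := (fun i => y i * a) + Pi.single k (-q)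
  have hy' := hy
  rw [form_one] at hy'
  have f1 : form φ 1 (fun i => y i * a) y = 0 := by
    rw [form_one]; simp only [h.mul, mul_assoc]; rw [← mul_sum, hy', mul_zero]
  have f2 : form φ 1 y (fun i => y i * a) = 0 := by
    rw [form_one]; simp only [← mul_assoc]; rw [← sum_mul, hy', zero_mul]
  have f3 : form φ 1 (fun i => y i * a) (fun i => y i * a) = 0 := by
    rw [form_one]; simp only [h.mul, mul_assoc]; rw [← mul_sum]
    simp only [← mul_assoc]; rw [← sum_mul, hy']; simp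
  have g1 : ∀ z : Fin n → ℍ[ℝ], form φ 1 (Pi.single k (-q)) z = q * z k := by
    intro z
    rw [form_one, sum_eq_single k]
    · simp [hq]
    · intro i _ hi; simp [hi]
    · simp
  have g2 : ∀ z : Fin n → ℍ[ℝ], form φ 1 z (Pi.single k (-q)) = -(φ (z k) * q) := by
    intro z
    rw [form_one, sum_eq_single k]
    · simp
    · intro i _ hi; simp [hi]
    · simp
  have ha : q * a = (1 / 2 : ℝ) • (α - 1) := by
    simp only [a]; rw [mul_smul_comm, ← mul_assoc, hqq, neg_one_mul]; module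
  have ha' : φ a * q = (-1 / 2 : ℝ) • (α - 1) := by
    simp only [a]
    rw [map_smul, h.mul, map_sub, hα, h.one, hq, smul_mul_assoc, mul_assoc, neg_mul, hqq]; simp
  have key : ∀ t : ℝ, form φ 1 (x₀ + t • y) (x₀ + t • y) = α := by
    intro t
    have g3 : form φ 1 (Pi.single k (-q)) (Pi.single k (-q)) = 1 := by rw [g1]; simp [hqq]
    simp only [x₀, form_add_left, form_add_right, form_smul_left, form_smul_right, f1, f2, f3,
      g3, hy]
    simp only [g1, g2, hk, h.one, one_mul, mul_one, ha, ha']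
    module
  refine quad_bounded (C := form φ A x₀ x₀) (L := form φ A x₀ y + form φ A y x₀) (M := M)
    fun t => ?_
  have := hM _ (key t)
  simp only [form_add_left, form_add_right, form_smul_left, form_smul_right] at this
  convert this using 2
  module

lemma skew_of_comm {q X : ℍ[ℝ]} (hqq : q * q = -1) (hφ : ∀ x, φ x = -(q * star x * q))
    (hX : X * q = q * X) : φ (X - (X.re : ℍ[ℝ])) = -(X - (X.re : ℍ[ℝ])) := by
  rw [hφ, pure_star (by simp)]
  have : (X - (X.re : ℍ[ℝ])) * q = q * (X - (X.re : ℍ[ℝ])) := by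
    rw [sub_mul, mul_sub, hX, Quaternion.coe_commutes]
  rw [mul_neg, neg_mul, neg_neg, mul_assoc, this, ← mul_assoc, hqq]; simp

lemma comm_of_conj {q r X : ℍ[ℝ]} (hqq : q * q = -1) (hrr : r * r = -1) (hqr : q * r = -(r * q))
    (hX : r * X * r = q * r * X * (q * r)) : X * q = q * X := by
  have h1 : r * (r * X * r) * r * q = r * (q * r * X * (q * r)) * r * q := by rw [← hX]
  have h2 : r * (r * X * r) * r * q = X * q := by
    calc r * (r * X * r) * r * q = (r * r) * X * (r * r) * q := by noncomm_ring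
      _ = X * q := by rw [hrr]; simp
  have h3 : r * (q * r * X * (q * r)) * r * q = q * X := by
    calc r * (q * r * X * (q * r)) * r * q = r * (q * r) * X * (q * (r * r) * q) := by
          noncomm_ring
      _ = q * X := by
          rw [hqr, hrr, mul_neg, ← mul_assoc r r q, hrr]
          simp [hqq]
  rw [← h2, h1, h3]

/-- The normal form of a two by two principal block. -/
lemma pair_form (h : IsInv φ) {q r : ℍ[ℝ]} (hq : φ q = -q) (hr : φ r = r) (hr0 : r.re = 0)
    (hqq : q * q = -1) (hrr : r * r = -1) (hφ : ∀ x, φ x = -(q * star x * q))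
    {A : Matrix (Fin n) (Fin n) ℍ[ℝ]}
    (hA : ∀ (y : Fin n → ℍ[ℝ]) (k : Fin n), y k = 1 → form φ 1 y y = 0 → form φ A y y = 0)
    {k l : Fin n} (hkl : k ≠ l) :
    ∃ (a b : ℝ) (s t : ℍ[ℝ]), φ s = -s ∧ φ t = -t ∧
      A k k = a + s ∧ A k l = b + t ∧ A l k = -b + t ∧ A l l = a - s := by
  have hqr := h.anti hq hr hr0
  have key : ∀ w : ℍ[ℝ], φ w = w → w * w = -1 →
      A k k + w * A l l * w = 0 ∧ A k l * w + w * A l k = 0 := by
    have k1 : ∀ w : ℍ[ℝ], φ w = w → w * w = -1 →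
        A k k + A k l * w + w * A l k + w * A l l * w = 0 := by
      intro w hw hww
      have := hA (Pi.single k 1 + Pi.single l w) k (by simp [hkl]) (by
        simp [form_add_left, form_add_right, form_single, h.one, hw, hww, hkl, hkl.symm])
      simp only [form_add_left, form_add_right, form_single, h.one, hw, one_mul, mul_one] at this
      rw [← this]; abel
    intro w hw hww
    have e1 := k1 w hw hww
    have e2 := k1 (-w) (by rw [map_neg, hw]) (by simpa using hww)
    simp only [mul_neg, neg_mul, neg_neg] at e2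
    constructor
    · have : (2 : ℝ) • (A k k + w * A l l * w) = 0 := by
        linear_combination (norm := module) e1 + e2
      exact (smul_eq_zero.1 this).resolve_left two_ne_zero
    · have : (2 : ℝ) • (A k l * w + w * A l k) = 0 := by
        linear_combination (norm := module) e1 - e2
      exact (smul_eq_zero.1 this).resolve_left two_ne_zero
  have hs1 : φ (q * r) = q * r := by rw [h.mul, hq, hr, hqr]; simp
  have hs2 : q * r * (q * r) = -1 := by
    calc q * r * (q * r) = q * (r * q) * r := by noncomm_ring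
      _ = -(q * q) * (r * r) := by
          have : r * q = -(q * r) := by rw [hqr]; simp
          rw [this]; noncomm_ring
      _ = -1 := by rw [hqq, hrr]; simp
  obtain ⟨e1, e2⟩ := key r hr hrr
  obtain ⟨e3, e4⟩ := key (q * r) hs1 hs2
  have e5 : A k l = r * A l k * r := by
    have : (A k l * r + r * A l k) * r = 0 := by rw [e2, zero_mul]
    rw [add_mul, mul_assoc, hrr] at this
    simp only [mul_neg, mul_one] at this
    exact (neg_add_eq_zero.1 this)
  have e6 : A k l = q * r * A l k * (q * r) := by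
    have : (A k l * (q * r) + q * r * A l k) * (q * r) = 0 := by rw [e4, zero_mul]
    rw [add_mul, mul_assoc, hs2] at this
    simp only [mul_neg, mul_one] at this
    exact (neg_add_eq_zero.1 this)
  have c1 : A l l * q = q * A l l :=
    comm_of_conj hqq hrr hqr (add_left_cancel (e1.trans e3.symm))
  have c2 : A l k * q = q * A l k := comm_of_conj hqq hrr hqr (e5.symm.trans e6)
  have s1 := skew_of_comm hqq hφ c1
  have s2 := skew_of_comm hqq hφ c2
  have conj : ∀ X : ℍ[ℝ], φ (X - (X.re : ℍ[ℝ])) = -(X - (X.re : ℍ[ℝ])) →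
      r * X * r = -(X.re : ℍ[ℝ]) + (X - (X.re : ℍ[ℝ])) := by
    intro X hX
    have a1 := h.anti hX hr hr0
    have a2 : r * X * r = r * (X.re : ℍ[ℝ]) * r + r * ((X - (X.re : ℍ[ℝ])) * r) := by
      noncomm_ring
    rw [a2, a1, ← Quaternion.coe_commutes, mul_assoc, hrr, mul_neg, mul_neg, ← mul_assoc, hrr]
    simp
  refine ⟨(A l l).re, -(A l k).re, -(A l l - ((A l l).re : ℍ[ℝ])), A l k - ((A l k).re : ℍ[ℝ]),
    by rw [map_neg, s1], s2, ?_, ?_, ?_, ?_⟩
  · rw [eq_neg_of_add_eq_zero_left e1, conj _ s1]; abel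
  · rw [e5, conj _ s2]; simp
  · simp
  · simp

lemma skew_eq {q s : ℍ[ℝ]} (h : IsInv φ) (hq : φ q = -q) (hqq : q * q = -1)
    (hφ : ∀ x, φ x = -(q * star x * q)) (hs : φ s = -s) : ∃ c : ℝ, s = c • q := by
  have hs0 := h.skew_pure hs
  have hq0 := h.skew_pure hq
  have h1 : q * s * q = -s := by
    have := hφ s
    rw [hs, pure_star hs0] at this
    simpa using this.symm
  have h2 : s * q = q * s := by
    have : q * (q * s * q) = q * -s := by rw [h1]
    rw [← mul_assoc, ← mul_assoc, hqq] at this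
    simpa using this
  refine ⟨-(s * q).re, ?_⟩
  have h3 := pure_anticomm hs0 hq0
  rw [← h2] at h3
  have h4 : (2 : ℝ) • (s * q) = (2 : ℝ) • (((s * q).re : ℝ) : ℍ[ℝ]) := by
    rw [two_smul, h3]; ext <;> simp
  have h5 : s * q = (((s * q).re : ℝ) : ℍ[ℝ]) := smul_right_injective _ two_ne_zero h4
  have h6 : s * q * q = (((s * q).re : ℝ) : ℍ[ℝ]) * q := by rw [← h5]
  rw [mul_assoc, hqq, Quaternion.coe_mul_eq_smul] at h6
  rw [neg_smul, ← h6]; simp

lemma normSq_identity (q x y : ℍ[ℝ]) (hq : q.re = 0) :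
    normSq (star x * q * x + star y * q * y) =
      normSq q * (normSq x - normSq y) ^ 2 + 4 * normSq q * (star x * y).re ^ 2 +
        4 * (star x * q * y).re ^ 2 := by
  simp [normSq_def', hq]; ring

lemma two_value (q x y : ℍ[ℝ]) (hq : q.re = 0) (c b d : ℝ) :
    star x * q * (c • q) * x + star x * q * ((b : ℍ[ℝ]) + d • q) * y +
      star y * q * (-(b : ℍ[ℝ]) + d • q) * x + star y * q * (-(c • q)) * y =
      ((-c * normSq q * (normSq x - normSq y) + 2 * b * (star x * q * y).re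
        - 2 * d * normSq q * (star x * y).re : ℝ) : ℍ[ℝ]) := by
  ext <;> simp [normSq_def', hq, pow_two] <;> ring

lemma normSq_unit {q : ℍ[ℝ]} (hq0 : q.re = 0) (hqq : q * q = -1) : normSq q = 1 := by
  rw [pure_sq hq0] at hqq
  have := congrArg QuaternionAlgebra.re hqq
  simpa using this

lemma norm_unit {q : ℍ[ℝ]} (hq0 : q.re = 0) (hqq : q * q = -1) : ‖q‖ = 1 := by
  have := normSq_unit hq0 hqq
  rw [normSq_eq_norm_mul_self] at this
  nlinarith [norm_nonneg q]

lemma scalar_form (h : IsInv φ) {q r : ℍ[ℝ]} (hq : φ q = -q) (hr : φ r = r) (hr0 : r.re = 0)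
    (hqq : q * q = -1) (hrr : r * r = -1) (hφ : ∀ x, φ x = -(q * star x * q))
    (hn : 3 ≤ n) {A : Matrix (Fin n) (Fin n) ℍ[ℝ]}
    (hA : ∀ (y : Fin n → ℍ[ℝ]) (k : Fin n), y k = 1 → form φ 1 y y = 0 → form φ A y y = 0) :
    ∃ a : ℝ, A = a • (1 : Matrix (Fin n) (Fin n) ℍ[ℝ]) := by
  have hqr := h.anti hq hr hr0
  have third : ∀ k l : Fin n, ∃ m, m ≠ k ∧ m ≠ l := by
    intro k l
    by_contra hc
    push Not at hc
    have : (univ : Finset (Fin n)) ⊆ {k, l} := by
      intro m _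
      by_cases hm : m = k
      · simp [hm]
      · simp [hc m hm]
    have h1 := card_le_card this
    have h2 := card_le_two (a := k) (b := l)
    rw [card_fin] at h1
    omega
  have pf := fun (k l : Fin n) (hkl : k ≠ l) => pair_form h hq hr hr0 hqq hrr hφ hA hkl
  have sum_real : ∀ k l, k ≠ l → A k k + A l l = ((2 * (A k k).re : ℝ) : ℍ[ℝ]) ∧
      (A k k).re = (A l l).re := by
    intro k l hkl
    obtain ⟨a, b, s, t, hs, -, e1, -, -, e4⟩ := pf k l hkl
    have := h.skew_pure hs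
    rw [e1, e4]
    refine ⟨?_, by simp [this]⟩
    ext <;> simp [this]
    ring
  have diag : ∀ k, A k k = ((A k k).re : ℍ[ℝ]) := by
    intro k
    obtain ⟨l, hl, -⟩ := third k k
    obtain ⟨m, hm1, hm2⟩ := third k l
    obtain ⟨a1, b1⟩ := sum_real k l hl.symm
    obtain ⟨a2, -⟩ := sum_real k m hm1.symm
    obtain ⟨a3, -⟩ := sum_real l m hm2.symm
    rw [← b1] at a3
    have : (2 : ℝ) • A k k = (2 : ℝ) • ((A k k).re : ℍ[ℝ]) := by
      have e : ((2 * (A k k).re : ℝ) : ℍ[ℝ]) = (2 : ℝ) • ((A k k).re : ℍ[ℝ]) := by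
        ext <;> simp
      rw [e] at a1 a2 a3
      linear_combination (norm := module) a1 + a2 - a3
    exact smul_right_injective _ two_ne_zero this
  have hu1 : φ (r + q * r) = r + q * r := by rw [map_add, h.mul, hq, hr, hqr]; simp
  have hu2 : (r + q * r) * (r + q * r) = -2 := by
    have e : r * q = -(q * r) := by rw [hqr]; simp
    calc (r + q * r) * (r + q * r) = r * r + (r * q) * r + q * (r * r) + q * (r * q) * r := by
          noncomm_ring
      _ = r * r - q * (r * r) + q * (r * r) - (q * q) * (r * r) := by rw [e]; noncomm_ring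
      _ = -2 := by rw [hqq, hrr]; norm_num
  have off : ∀ k l, k ≠ l → A k l = 0 := by
    intro k l hkl
    obtain ⟨m, hm1, hm2⟩ := third k l
    have key : ∀ w : ℍ[ℝ], φ w * w = 1 → A k l * w + φ w * A l k = 0 := by
      intro w hw
      have null : ∀ u : ℍ[ℝ], φ u = u → u * u = -2 →
          form φ A (Pi.single k 1 + Pi.single l w + Pi.single m u)
            (Pi.single k 1 + Pi.single l w + Pi.single m u) = 0 := by
        intro u hu huu
        refine hA _ k (by simp [hkl, hm1.symm]) ?_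
        simp [form_add_left, form_add_right, form_single, h.one, hw, hu, huu, hkl, hkl.symm,
          hm1, hm1.symm, hm2, hm2.symm]
        norm_num
      have e1 := null _ hu1 hu2
      have e2 := null (-(r + q * r)) (by rw [map_neg, hu1]) (by rw [neg_mul_neg, hu2])
      have d1 : φ w * A l l * w = ((A k k).re : ℍ[ℝ]) := by
        rw [diag l, ← (sum_real k l hkl).2, ← Quaternion.coe_commutes, mul_assoc, hw, mul_one]
      have d2 : (r + q * r) * A m m * (r + q * r) = -(2 : ℝ) • ((A k k).re : ℍ[ℝ]) := by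
        rw [diag m, ← (sum_real k m hm1.symm).2, ← Quaternion.coe_commutes, mul_assoc, hu2,
          ← one_add_one_eq_two, mul_neg, mul_add, mul_one]
        module
      simp only [form_add_left, form_add_right, form_single, h.one, hu1, map_neg, one_mul, mul_one,
        mul_neg, neg_mul, neg_neg, d1, d2] at e1 e2
      have : (2 : ℝ) • (A k l * w + φ w * A l k) = 0 := by
        linear_combination (norm := module) e1 + e2 - (2 : ℝ) • diag k
      exact (smul_eq_zero.1 this).resolve_left two_ne_zero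
    obtain ⟨a, b, s, t, -, ht, -, e2, e3, -⟩ := pf k l hkl
    obtain ⟨c, rfl⟩ := skew_eq h hq hqq hφ ht
    have k1 := key 1 (by simp [h.one])
    have k2 := key q (by rw [hq, neg_mul, hqq, neg_neg])
    rw [e2, e3] at k1 k2
    rw [h.one, mul_one, one_mul] at k1
    rw [hq, add_mul, neg_mul, mul_add, smul_mul_assoc, mul_smul_comm, mul_neg,
      ← Quaternion.coe_commutes, Quaternion.coe_mul_eq_smul] at k2
    have hq0 : q ≠ 0 := by rintro rfl; simp at hqq
    have z1 : (2 * c) • q = 0 := by linear_combination (norm := module) k1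
    have z2 : (2 * b) • q = 0 := by linear_combination (norm := module) k2
    have z3 : c = 0 := by simpa [hq0] using z1
    have z4 : b = 0 := by simpa [hq0] using z2
    rw [e2, z3, z4]; simp
  let k₀ : Fin n := ⟨0, by omega⟩
  refine ⟨(A k₀ k₀).re, ?_⟩
  ext1 k l
  by_cases hkl : k = l
  · subst hkl
    rw [diag k]
    by_cases hk : k = k₀
    · rw [hk]; ext <;> simp
    · rw [(sum_real k k₀ hk).2]; ext <;> simp
  · rw [off k l hkl]; simp [hkl]

lemma form_scalar (a : ℝ) (x : Fin n → ℍ[ℝ]) :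
    form φ (a • (1 : Matrix (Fin n) (Fin n) ℍ[ℝ])) x x = a • form φ 1 x x := by
  simp [form, smul_sum]

lemma bound_one {q : ℍ[ℝ]} (hq0 : q.re = 0) (hqq : q * q = -1)
    (hφ : ∀ x, φ x = -(q * star x * q)) (A : Matrix (Fin 1) (Fin 1) ℍ[ℝ]) (x : Fin 1 → ℍ[ℝ]) :
    ‖form φ A x x‖ = ‖A 0 0‖ * ‖form φ 1 x x‖ := by
  have := norm_unit hq0 hqq
  simp [form, hφ, this]
  ring

lemma bound_two (h : IsInv φ) {q : ℍ[ℝ]} (hq : φ q = -q) (hqq : q * q = -1)
    (hφ : ∀ x, φ x = -(q * star x * q)) (a b : ℝ) {s t : ℍ[ℝ]} (hs : φ s = -s) (ht : φ t = -t) :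
    ∃ C : ℝ, ∀ x : Fin 2 → ℍ[ℝ],
      ‖form φ !![a + s, b + t; -b + t, a - s] x x‖ ≤ C * ‖form φ 1 x x‖ := by
  obtain ⟨c, rfl⟩ := skew_eq h hq hqq hφ hs
  obtain ⟨d, rfl⟩ := skew_eq h hq hqq hφ ht
  have hq0 := h.skew_pure hq
  have n1 := normSq_unit hq0 hqq
  have n2 := norm_unit hq0 hqq
  refine ⟨|a| + |c| + |b| + |d|, fun x => ?_⟩
  set p := star (x 0) * q * x 0 + star (x 1) * q * x 1 with hp
  have e1 : form φ 1 x x = -(q * p) := by
    rw [form_one, Fin.sum_univ_two, hφ, hφ, hp]; noncomm_ring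
  have e2 := two_value q (x 0) (x 1) hq0 c b d
  set D := normSq (x 0) - normSq (x 1) with hD
  set u := (star (x 0) * q * x 1).re with hu
  set v := (star (x 0) * x 1).re with hv
  have e3 : form φ !![a + c • q, b + d • q; -b + d • q, a - c • q] x x =
      -(q * (a • p + ((-c * normSq q * D + 2 * b * u - 2 * d * normSq q * v : ℝ) : ℍ[ℝ]))) := by
    rw [← e2, hp]
    simp only [form, Fin.sum_univ_two, hφ, Matrix.of_apply, Matrix.cons_val', Matrix.cons_val_zero,
      Matrix.cons_val_one, Matrix.cons_val_fin_one]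
    have ca : ∀ y z : ℍ[ℝ], y * (a : ℍ[ℝ]) * z = a • (y * z) := by
      intro y z
      rw [← Quaternion.coe_commutes, Quaternion.coe_mul_eq_smul, smul_mul_assoc]
    simp only [mul_add, add_mul, mul_sub, sub_mul, ca, smul_add, mul_smul_comm, smul_mul_assoc,
      neg_mul, mul_neg, mul_assoc, smul_neg]
    abel
  have e4 := normSq_identity q (x 0) (x 1) hq0
  rw [← hp, ← hD, ← hu, ← hv, n1, normSq_eq_norm_mul_self] at e4
  have hp0 := norm_nonneg p
  have b1 : |D| ≤ ‖p‖ := abs_le_of_sq_le_sq' (by nlinarith [sq_nonneg u, sq_nonneg v]) hp0 |> abs_le.2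
  have b2 : |2 * u| ≤ ‖p‖ :=
    abs_le_of_sq_le_sq' (by nlinarith [sq_nonneg D, sq_nonneg v]) hp0 |> abs_le.2
  have b3 : |2 * v| ≤ ‖p‖ :=
    abs_le_of_sq_le_sq' (by nlinarith [sq_nonneg D, sq_nonneg u]) hp0 |> abs_le.2
  rw [e1, e3, norm_neg, norm_neg, norm_mul, norm_mul, n2, one_mul, one_mul, n1]
  refine (norm_add_le _ _).trans ?_
  rw [norm_smul, Quaternion.norm_coe, Real.norm_eq_abs, Real.norm_eq_abs]
  have e5 : -c * 1 * D + 2 * b * u - 2 * d * 1 * v = -(c * D) + b * (2 * u) + -(d * (2 * v)) := by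
    ring
  have b4 := abs_add_three (-(c * D)) (b * (2 * u)) (-(d * (2 * v)))
  rw [abs_neg, abs_neg, abs_mul c, abs_mul b, abs_mul d] at b4
  rw [e5]
  have := mul_le_mul_of_nonneg_left b1 (abs_nonneg c)
  have := mul_le_mul_of_nonneg_left b2 (abs_nonneg b)
  have := mul_le_mul_of_nonneg_left b3 (abs_nonneg d)
  nlinarith

end Pool.Agent.P.MP_dceaed_al
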